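import Pool.Agent.helper42.CQ.SpecC

/-!
# Row cq:BR2 (MP_ba8873_co): births
-/

set_option autoImplicit false

namespace Pool.Agent.helper42.CQ

open Finset Pool.Agent.helper24.CG

private theorem BR2_ed {N : ℕ} {B B' : Finset (Fin N)} (h : B ⊆ B') : ed B ⊆ ed B' :=
  Finset.powersetCard_mono h

private theorem BR2_ch (N m b q p : ℕ) (c : ℝ) (H : List (ES N)) (Bk : ES N)
    (X : Finset (Fin N) → ℕ → Finset (Fin N)) (κ : Finset (Fin N) → Finset (Fin N) → ℝ)
    (T : ℕ → Finset (Fin N) → ℝ)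
    (h0 : ∀ n B, 0 ≤ T n B) (h1 : 1 ≤ T 0 ∅) (h2 : ∀ n x y, T n x * κ x y ≤ T (n + 1) y)
    (k1 : ∀ B F : Finset (Fin N), F.Nonempty → Disjoint B F → (B ∪ F).card ≤ q →
      Disjoint (X B (B ∪ F).card) F → Disjoint (rest (B ∪ F) B) Bk →
      Real.exp (Real.log (gain b m (rest (B ∪ F) B) H) - (F.card : ℝ) * Real.log N -
        kP N q p c) ≤ κ B (B ∪ F))
    (k2 : ∀ (B : Finset (Fin N)) (v : Fin N) (E : ES N) (e : Finset (Fin N)), E ∈ H → e ∈ E →
      e ∈ ed B → v ∈ verts E → v ∉ B → B.card + 1 ≤ q →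
      Real.exp (-kF N m b q p) ≤ κ B (insert v B))
    (k3 : ∀ (B : Finset (Fin N)) (v : Fin N) (s : ℕ), s ≤ q → v ∈ X B s → v ∉ B → B.card + 1 ≤ q →
      Real.exp (-kF N m b q p) ≤ κ B (insert v B))
    (B : Finset (Fin N)) (w : ℝ) (hc : Chain N m b q p c H X B w) :
    Disjoint (ed B) Bk → ∃ n ≤ B.card, Real.exp w ≤ T n B := by
  induction hc with
  | nil =>
    intro _
    exact ⟨0, Nat.zero_le _, by rw [Real.exp_zero]; exact h1⟩
  | paid B F w h hF hd hcc hX ih =>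
    intro hBk
    have hs1 : Disjoint (ed B) Bk := hBk.mono_left (BR2_ed subset_union_left)
    have hs2 : Disjoint (rest (B ∪ F) B) Bk := hBk.mono_left sdiff_subset
    obtain ⟨n, hn, hT⟩ := ih hs1
    refine ⟨n + 1, ?_, ?_⟩
    · rw [card_union_of_disjoint hd]
      have := hF.card_pos
      omega
    · have e1 : w + Real.log (gain b m (rest (B ∪ F) B) H) - (F.card : ℝ) * Real.log N - kP N q p c =
          w + (Real.log (gain b m (rest (B ∪ F) B) H) - (F.card : ℝ) * Real.log N - kP N q p c) := by ring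
      rw [e1, Real.exp_add]
      exact (mul_le_mul hT (k1 B F hF hd hcc hX hs2) (Real.exp_pos _).le (h0 n B)).trans (h2 n B (B ∪ F))
  | turn B v w E e h hE he heB hv hvB hcc ih =>
    intro hBk
    have hs1 : Disjoint (ed B) Bk := hBk.mono_left (BR2_ed (subset_insert _ _))
    obtain ⟨n, hn, hT⟩ := ih hs1
    refine ⟨n + 1, ?_, ?_⟩
    · rw [card_insert_of_notMem hvB]; omega
    · rw [sub_eq_add_neg, Real.exp_add]
      exact (mul_le_mul hT (k2 B v E e hE he heB hv hvB hcc) (Real.exp_pos _).le (h0 n B)).trans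
        (h2 n B (insert v B))
  | heavy B v s w h hs hv hvB hcc ih =>
    intro hBk
    have hs1 : Disjoint (ed B) Bk := hBk.mono_left (BR2_ed (subset_insert _ _))
    obtain ⟨n, hn, hT⟩ := ih hs1
    refine ⟨n + 1, ?_, ?_⟩
    · rw [card_insert_of_notMem hvB]; omega
    · rw [sub_eq_add_neg, Real.exp_add]
      exact (mul_le_mul hT (k3 B v s hs hv hvB hcc) (Real.exp_pos _).le (h0 n B)).trans
        (h2 n B (insert v B))

theorem BR2 (hKER : KER_stmt) (hBRK : BRK_stmt) : BR2_stmt := by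
  classical
  intro N m b q p c H Bk X hN hm hq hp hc hH hX hsum
  obtain ⟨κ, κ0, κ1, k1, k2, k3⟩ := hBRK N m b q p c H Bk X hN hm hq hp hc hH hX hsum
  obtain ⟨T, T0, T1, T2, T3⟩ := hKER (Finset (Fin N)) ∅ κ κ0 κ1
  have hNpos : (0 : ℝ) < N := by exact_mod_cast hN
  have hD : (0 : ℝ) < ((q : ℝ) + 1) * (N : ℝ) ^ 2 := by positivity
  refine ⟨fun S => ∑ n ∈ range (q + 1), ∑ K ∈ univ.filter (fun K : Finset (Fin N) => K.card = q ∧ ed K = S),
    T n K / (((q : ℝ) + 1) * (N : ℝ) ^ 2), ?_, ?_, ?_⟩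
  · intro S
    exact sum_nonneg fun n _ => sum_nonneg fun K _ => div_nonneg (T0 n K) hD.le
  · rw [sum_comm]
    have h1 : ∀ n ∈ range (q + 1), ∑ S : ES N, ∑ K ∈ univ.filter (fun K : Finset (Fin N) => K.card = q ∧ ed K = S),
        T n K / (((q : ℝ) + 1) * (N : ℝ) ^ 2) ≤ (((q : ℝ) + 1) * (N : ℝ) ^ 2)⁻¹ := by
      intro n _
      have e1 : ∑ S : ES N, ∑ K ∈ univ.filter (fun K : Finset (Fin N) => K.card = q ∧ ed K = S),
          T n K / (((q : ℝ) + 1) * (N : ℝ) ^ 2) =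
          ∑ K ∈ univ.filter (fun K : Finset (Fin N) => K.card = q), T n K / (((q : ℝ) + 1) * (N : ℝ) ^ 2) := by
        rw [← sum_fiberwise (univ.filter (fun K : Finset (Fin N) => K.card = q)) (fun K => ed K)
          (fun K => T n K / (((q : ℝ) + 1) * (N : ℝ) ^ 2))]
        refine sum_congr rfl fun S _ => ?_
        rw [filter_filter]
      rw [e1, ← sum_div, inv_eq_one_div]
      apply div_le_div_of_nonneg_right _ hD.le
      refine le_trans ?_ (T1 n)
      exact sum_le_sum_of_subset_of_nonneg (filter_subset _ _) fun K _ _ => T0 n K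
    refine (sum_le_sum h1).trans ?_
    rw [sum_const, card_range, nsmul_eq_mul]
    have hq1 : ((q + 1 : ℕ) : ℝ) ≠ 0 := by positivity
    have hN2 : (N : ℝ) ^ 2 ≠ 0 := by positivity
    apply le_of_eq
    push_cast
    have hq2 : (q : ℝ) + 1 ≠ 0 := by positivity
    field_simp
  · intro K hK hKB w hw
    obtain ⟨n, hn, hT⟩ := BR2_ch N m b q p c H Bk X κ T T0 T2 T3 k1 k2 k3 K w hw hKB
    have hn' : n ∈ range (q + 1) := mem_range.2 (by omega)
    have h1 : T n K / (((q : ℝ) + 1) * (N : ℝ) ^ 2) ≤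
        ∑ K' ∈ univ.filter (fun K' : Finset (Fin N) => K'.card = q ∧ ed K' = ed K),
          T n K' / (((q : ℝ) + 1) * (N : ℝ) ^ 2) :=
      single_le_sum (f := fun K' => T n K' / (((q : ℝ) + 1) * (N : ℝ) ^ 2))
        (fun K' _ => div_nonneg (T0 n K') hD.le) (mem_filter.2 ⟨mem_univ _, hK, rfl⟩)
    have h2 : ∑ K' ∈ univ.filter (fun K' : Finset (Fin N) => K'.card = q ∧ ed K' = ed K),
          T n K' / (((q : ℝ) + 1) * (N : ℝ) ^ 2) ≤
        ∑ n ∈ range (q + 1), ∑ K' ∈ univ.filter (fun K' : Finset (Fin N) => K'.card = q ∧ ed K' = ed K),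
          T n K' / (((q : ℝ) + 1) * (N : ℝ) ^ 2) :=
      single_le_sum (f := fun n => ∑ K' ∈ univ.filter (fun K' : Finset (Fin N) => K'.card = q ∧ ed K' = ed K),
          T n K' / (((q : ℝ) + 1) * (N : ℝ) ^ 2))
        (fun n _ => sum_nonneg fun K' _ => div_nonneg (T0 n K') hD.le) hn'
    exact (div_le_div_of_nonneg_right hT hD.le).trans (h1.trans h2)

end Pool.Agent.helper42.CQ
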