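import Pool.Agent.helper42.CQ.SpecC

/-!
# Row cq:LSS (MP_ba8873_co): losses of the untouched edges
-/

set_option autoImplicit false

namespace Pool.Agent.helper42.CQ

open Finset Pool.Agent.helper24.CG

theorem LSS (hEXC : EXC_stmt) (hWTC : WTC_stmt) (hWTA : WTA_stmt) (hREL : REL_stmt) : LSS_stmt := by
  classical
  intro N m b q M s K H hm hb hH hM hs hK hcl
  have hmono : ∀ e, tch M K s H e → tch M K 2 H e := by
    rintro e ⟨H₂, E, H₁, h1, h2, z, hz, hzG⟩
    obtain ⟨_, _, _, _, _, _, _, _, _, h10, _, _⟩ := hREL N M K hM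
    exact ⟨H₂, E, H₁, h1, h2, z, hz, h10 2 s H₁ hs hzG⟩
  have hmp : (0 : ℝ) < m := by exact_mod_cast hm
  have hwt0 : ∀ e, 0 ≤ wt b m K H e := fun e => ((hWTA N m b K H hm hb hH).1 e).1
  have hE1 := hEXC N m q M s K H hH hM hs hK
  have hE2 := hEXC N m q M 2 K H hH hM le_rfl hK
  set X1 := (ed K).filter fun e => (∃ E ∈ H, e ∈ E ∧ (s - 1) ^ 2 < (E ∩ ed K).card) ∧ ¬ tch M K s H e with hX1
  set X2 := (ed K).filter fun e => (∃ E ∈ H, e ∈ E ∧ (2 - 1) ^ 2 < (E ∩ ed K).card) ∧ ¬ tch M K 2 H e with hX2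
  have hc1 : (X1.card : ℝ) ≤ 2 * (q : ℝ) * m * (M : ℝ) ^ 2 + q * s := by
    have h : (X1.card : ℝ) ≤ ((2 * q * m * M ^ 2 + q * s : ℕ) : ℝ) := by exact_mod_cast hE1
    push_cast at h; exact h
  have hc2 : (X2.card : ℝ) ≤ 2 * (q : ℝ) * m * (M : ℝ) ^ 2 + 2 * q := by
    have h : (X2.card : ℝ) ≤ ((2 * q * m * M ^ 2 + q * 2 : ℕ) : ℝ) := by exact_mod_cast hE2
    push_cast at h; linarith
  have hcoef : (0 : ℝ) ≤ (b : ℝ) * ((s : ℝ) - 1) ^ 2 / (2 * (m : ℝ)) := by positivity
  have hle1 : ∀ e, 1 - wt b m K H e ≤ 1 := fun e => by linarith [hwt0 e]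
  constructor
  · have hpt : ∀ e ∈ (ed K).filter (fun e => ¬ tch M K s H e), 1 - wt b m K H e ≤
        (if e ∈ X1 then (1 : ℝ) else 0) + (if e ∈ X2 then (1 : ℝ) else 0) +
          (if tch M K 2 H e then (b : ℝ) * ((s : ℝ) - 1) ^ 2 / (2 * (m : ℝ)) else 0) := by
      intro e he
      rw [mem_filter] at he
      obtain ⟨heK, hnt⟩ := he
      obtain ⟨E, hE, heE⟩ := hcl e heK
      obtain ⟨_, w2, w3⟩ := hWTC N m b K H hm hb hH E hE e heE heK
      have p1 : (0 : ℝ) ≤ if e ∈ X1 then (1 : ℝ) else 0 := by split_ifs <;> norm_num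
      have p2 : (0 : ℝ) ≤ if e ∈ X2 then (1 : ℝ) else 0 := by split_ifs <;> norm_num
      have p3 : (0 : ℝ) ≤ if tch M K 2 H e then (b : ℝ) * ((s : ℝ) - 1) ^ 2 / (2 * (m : ℝ)) else 0 := by
        split_ifs
        · exact hcoef
        · exact le_rfl
      by_cases h1 : (E ∩ ed K).card ≤ 1
      · rw [w3 h1, sub_self]; linarith
      · by_cases h2 : (s - 1) ^ 2 < (E ∩ ed K).card
        · have : e ∈ X1 := mem_filter.2 ⟨heK, ⟨E, hE, heE, h2⟩, hnt⟩
          rw [if_pos this]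
          linarith [hle1 e]
        · by_cases h3 : tch M K 2 H e
          · rw [if_pos h3]
            have h4 : ((E ∩ ed K).card : ℝ) ≤ ((s : ℝ) - 1) ^ 2 := by
              have h5 : (E ∩ ed K).card ≤ (s - 1) ^ 2 := not_lt.1 h2
              have h6 : ((E ∩ ed K).card : ℝ) ≤ (((s - 1) ^ 2 : ℕ) : ℝ) := by exact_mod_cast h5
              have h7 : (((s - 1) ^ 2 : ℕ) : ℝ) = ((s : ℝ) - 1) ^ 2 := by
                rw [Nat.cast_pow, Nat.cast_sub (by omega)]; norm_num
              rw [h7] at h6; exact h6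
            have h8 : (b : ℝ) * ((E ∩ ed K).card : ℝ) / (2 * (m : ℝ)) ≤
                (b : ℝ) * ((s : ℝ) - 1) ^ 2 / (2 * (m : ℝ)) := by
              apply div_le_div_of_nonneg_right _ (by positivity)
              exact mul_le_mul_of_nonneg_left h4 (Nat.cast_nonneg b)
            linarith
          · have h5 : (2 - 1) ^ 2 < (E ∩ ed K).card := by
              have : (2 - 1) ^ 2 = 1 := by norm_num
              omega
            have : e ∈ X2 := mem_filter.2 ⟨heK, ⟨E, hE, heE, h5⟩, h3⟩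
            rw [if_pos this]
            linarith [hle1 e]
    refine (sum_le_sum hpt).trans ?_
    rw [sum_add_distrib, sum_add_distrib]
    have s1 : ∑ e ∈ (ed K).filter (fun e => ¬ tch M K s H e), (if e ∈ X1 then (1 : ℝ) else 0) ≤ X1.card := by
      rw [← sum_filter, sum_const, nsmul_eq_mul, mul_one]
      exact_mod_cast card_le_card (fun x hx => (mem_filter.1 hx).2)
    have s2 : ∑ e ∈ (ed K).filter (fun e => ¬ tch M K s H e), (if e ∈ X2 then (1 : ℝ) else 0) ≤ X2.card := by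
      rw [← sum_filter, sum_const, nsmul_eq_mul, mul_one]
      exact_mod_cast card_le_card (fun x hx => (mem_filter.1 hx).2)
    have s3 : ∑ e ∈ (ed K).filter (fun e => ¬ tch M K s H e),
        (if tch M K 2 H e then (b : ℝ) * ((s : ℝ) - 1) ^ 2 / (2 * (m : ℝ)) else 0) ≤
        (b : ℝ) * ((s : ℝ) - 1) ^ 2 / (2 * (m : ℝ)) * (((ed K).filter (tch M K 2 H)).card : ℝ) := by
      rw [← sum_filter, sum_const, nsmul_eq_mul, mul_comm]
      apply mul_le_mul_of_nonneg_left _ hcoef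
      have : (((ed K).filter (fun e => ¬ tch M K s H e)).filter (fun e => tch M K 2 H e)).card ≤
          ((ed K).filter (tch M K 2 H)).card := by
        apply card_le_card
        intro x hx
        rw [mem_filter, mem_filter] at hx
        exact mem_filter.2 ⟨hx.1.1, hx.2⟩
      exact_mod_cast this
    linarith
  · have hpt : ∀ e ∈ (ed K).filter (fun e => ¬ tch M K 2 H e), 1 - wt b m K H e ≤
        (if e ∈ X2 then (1 : ℝ) else 0) := by
      intro e he
      rw [mem_filter] at he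
      obtain ⟨heK, hnt⟩ := he
      obtain ⟨E, hE, heE⟩ := hcl e heK
      obtain ⟨_, w2, w3⟩ := hWTC N m b K H hm hb hH E hE e heE heK
      by_cases h1 : (E ∩ ed K).card ≤ 1
      · rw [w3 h1, sub_self]; split_ifs <;> norm_num
      · have h5 : (2 - 1) ^ 2 < (E ∩ ed K).card := by
          have : (2 - 1) ^ 2 = 1 := by norm_num
          omega
        have : e ∈ X2 := mem_filter.2 ⟨heK, ⟨E, hE, heE, h5⟩, hnt⟩
        rw [if_pos this]
        exact hle1 e
    refine (sum_le_sum hpt).trans ?_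
    have s2 : ∑ e ∈ (ed K).filter (fun e => ¬ tch M K 2 H e), (if e ∈ X2 then (1 : ℝ) else 0) ≤ X2.card := by
      rw [← sum_filter, sum_const, nsmul_eq_mul, mul_one]
      exact_mod_cast card_le_card (fun x hx => (mem_filter.1 hx).2)
    linarith

end Pool.Agent.helper42.CQ
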